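import Pool.Agent.CSY.Ord

/-!
# Homogeneous sets of type `ω₂ + α` from closed families of unbounded sets

Colourings of the pairs of `ω₃` with countably many colours.
-/

set_option autoImplicit false

namespace Pool.Agent.Results.MP_648570_lc.ClosedSystems

open Cardinal Order Ordinal

/-- There is a subset of `B` of order type `ξ` (the set of the `h j`, `j < ξ`) all of whose pairs
have the colour `n`. -/
def Hom {γ : Type} (B : Set Ordinal.{0}) (f : Ordinal.{0} → Ordinal.{0} → γ) (n : γ)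
    (ξ : Ordinal.{0}) : Prop :=
  ∃ h : Ordinal.{0} → Ordinal.{0}, (∀ j < ξ, h j ∈ B) ∧
    ∀ i j, i < j → j < ξ → h i < h j ∧ f (h i) (h j) = n

/-- The members of `D` are unbounded subsets of `κ`. -/
def Unbounded (κ : Ordinal.{0}) (D : Set (Set Ordinal.{0})) : Prop :=
  ∀ B ∈ D, (∀ a ∈ B, a < κ) ∧ ∀ w < κ, ∃ a ∈ B, w < a

/-- Every decreasing sequence of length `< μ` of members of `D` has a lower bound in `D`. -/
def Closed (μ : Ordinal.{0}) (D : Set (Set Ordinal.{0})) : Prop :=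
  ∀ α < μ, ∀ g : Ordinal.{0} → Set Ordinal.{0}, (∀ i < α, g i ∈ D) →
    (∀ i j, i < j → j < α → g j ⊆ g i) → ∃ B ∈ D, ∀ i < α, B ⊆ g i

/-- Every `B ∈ D` has, for every colour `n`, a subset `B' ∈ D` such that either no pair of `B'` has
the colour `n`, or for every `a ∈ B'` the set of the `y ∈ B` above `a` which are joined to `a` in
the colour `n` contains a member of `D`. -/
def Normal {γ : Type} (f : Ordinal.{0} → Ordinal.{0} → γ) (D : Set (Set Ordinal.{0})) : Prop :=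
  ∀ B ∈ D, ∀ n, ∃ B' ∈ D, B' ⊆ B ∧ ((∀ a ∈ B', ∀ b ∈ B', a < b → f a b ≠ n) ∨
    ∀ a ∈ B', ∃ B'' ∈ D, B'' ⊆ B ∧ ∀ y ∈ B'', a < y ∧ f a y = n)

theorem result :
    ((2 : Cardinal.{0}) ^ (ℵ₀ : Cardinal.{0}) = ℵ_ 1 →
      (2 : Cardinal.{0}) ^ (ℵ_ 1 : Cardinal.{0}) = ℵ_ 2 →
      ∀ (f : Ordinal.{0} → Ordinal.{0} → ℕ) (D : Set (Set Ordinal.{0})),
        Unbounded (ω_ 3) D → Closed (ω_ 2) D → Normal f D →
          ∀ B ∈ D, ∃ n, ∀ α < ω_ 1, Hom B f n (ω_ 2 + α)) ∧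
    ∀ τ ν : Cardinal.{0}, ℵ₀ ≤ τ → 2 ^ τ ≤ ν → 2 ^ ν = succ ν →
      ∀ (γ : Type) (_ : #γ ≤ τ) (f : Ordinal.{0} → Ordinal.{0} → γ) (D : Set (Set Ordinal.{0})),
        Unbounded (succ (succ ν)).ord D → Closed (succ ν).ord D → Normal f D →
          ∀ B ∈ D, ∃ n, ∀ α < (succ τ).ord, Hom B f n ((succ ν).ord + α) := by
  have key : ∀ τ ν : Cardinal.{0}, ℵ₀ ≤ τ → 2 ^ τ ≤ ν → 2 ^ ν = succ ν →
      ∀ (γ : Type) (_ : #γ ≤ τ) (f : Ordinal.{0} → Ordinal.{0} → γ) (D : Set (Set Ordinal.{0})),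
        Unbounded (succ (succ ν)).ord D → Closed (succ ν).ord D → Normal f D →
          ∀ B ∈ D, ∃ n, ∀ α < (succ τ).ord, Hom B f n ((succ ν).ord + α) :=
    fun τ ν hτ hτν h2 γ hγ f D hD hC hN => Pool.Agent.CSY.crit_ord hτ hτν h2 hγ f D hD hC hN
  refine ⟨fun h0 h f D hD hC hN => ?_, key⟩
  have e0 : succ (ℵ₀ : Cardinal.{0}) = ℵ_ 1 := by
    rw [← aleph_zero, succ_aleph]
    norm_num
  have e1 : succ (ℵ_ 1 : Cardinal.{0}) = ℵ_ 2 := by
    rw [succ_aleph]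
    norm_num
  have e2 : succ (ℵ_ 2 : Cardinal.{0}) = ℵ_ 3 := by
    rw [succ_aleph]
    norm_num
  have h1 := key ℵ₀ (ℵ_ 1) le_rfl h0.le (by rw [h, e1]) ℕ mk_nat.le f D
  rw [e0, e1, e2, ord_aleph, ord_aleph, ord_aleph] at h1
  exact h1 hD hC hN

end Pool.Agent.Results.MP_648570_lc.ClosedSystems
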