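import Pool.Agent.FGM.Ord

/-!
# Homogeneous sets of all types `< ω₂ ^ ω` for colourings with few germs
-/

set_option autoImplicit false

namespace Pool.Agent.Results.MP_648570_lc.FewGerms

open Cardinal Order Ordinal

/-- There is a subset of `T` of order type `ξ` (the set of the `h j`, `j < ξ`) all of whose pairs
have the colour `n`. -/
def Hom {γ : Type} (T : Set Ordinal.{0}) (f : Ordinal.{0} → Ordinal.{0} → γ) (n : γ)
    (ξ : Ordinal.{0}) : Prop :=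
  ∃ h : Ordinal.{0} → Ordinal.{0}, (∀ j < ξ, h j ∈ T) ∧
    ∀ i j, i < j → j < ξ → h i < h j ∧ f (h i) (h j) = n

/-- There are at most `ν⁺` germs at `η`: there are functions `g i` (`i < ν⁺`) such that for every
`b ∈ T`, `η ≤ b`, there are `i` and `U ⊆ η` of size at most `ν` such that `f · b` agrees with
`g i` at all points `a ∈ T` below `η` which look like `b` over `U` (that is, `a` is above all
`u ∈ U`, and `f u a = f u b`). -/
def Few (ν : Cardinal.{0}) {γ : Type} (T : Set Ordinal.{0})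
    (f : Ordinal.{0} → Ordinal.{0} → γ) (η : Ordinal.{0}) : Prop :=
  ∃ g : Ordinal.{0} → Ordinal.{0} → γ, ∀ b ∈ T, η ≤ b → ∃ i < (succ ν).ord,
    ∃ U : Set Ordinal.{0}, #U ≤ lift.{1} ν ∧ (∀ u ∈ U, u < η) ∧
      ∀ a ∈ T, a < η → (∀ u ∈ U, u < a ∧ f u a = f u b) → f a b = g i a

/-- The set of the `η < κ` of cofinality `ν⁺` with at most `ν⁺` germs is stationary. -/
def OftenFew (ν : Cardinal.{0}) (κ : Ordinal.{0}) {γ : Type} (T : Set Ordinal.{0})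
    (f : Ordinal.{0} → Ordinal.{0} → γ) : Prop :=
  ∀ F : Ordinal.{0} → Ordinal.{0}, (∀ a < κ, F a < κ) →
    ∃ η < κ, η.cof = succ ν ∧ (∀ d < η, F d < η) ∧ Few ν T f η

theorem result :
    ((2 : Cardinal.{0}) ^ (ℵ_ 1 : Cardinal.{0}) = ℵ_ 2 →
      ∀ (γ : Type) (_ : #γ ≤ ℵ_ 1) (f : Ordinal.{0} → Ordinal.{0} → γ) (T : Set Ordinal.{0}),
        (∀ b ∈ T, b < ω_ 3) → (∀ e < ω_ 3, ∃ b ∈ T, e ≤ b) → OftenFew (ℵ_ 1) (ω_ 3) T f →
          ∀ ξ < ω_ 2 ^ (ω : Ordinal.{0}), ∃ n, Hom T f n ξ) ∧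
    ∀ ν : Cardinal.{0}, ℵ₀ ≤ ν → 2 ^ ν = succ ν →
      ∀ (γ : Type) (_ : #γ ≤ ν) (f : Ordinal.{0} → Ordinal.{0} → γ) (T : Set Ordinal.{0}),
        (∀ b ∈ T, b < (succ (succ ν)).ord) → (∀ e < (succ (succ ν)).ord, ∃ b ∈ T, e ≤ b) →
          OftenFew ν (succ (succ ν)).ord T f →
            ∀ ξ < (succ ν).ord ^ (ω : Ordinal.{0}), ∃ n, Hom T f n ξ := by
  have key : ∀ ν : Cardinal.{0}, ℵ₀ ≤ ν → 2 ^ ν = succ ν →
      ∀ (γ : Type) (_ : #γ ≤ ν) (f : Ordinal.{0} → Ordinal.{0} → γ) (T : Set Ordinal.{0}),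
        (∀ b ∈ T, b < (succ (succ ν)).ord) → (∀ e < (succ (succ ν)).ord, ∃ b ∈ T, e ≤ b) →
          OftenFew ν (succ (succ ν)).ord T f →
            ∀ ξ < (succ ν).ord ^ (ω : Ordinal.{0}), ∃ n, Hom T f n ξ :=
    fun ν h1 h2 γ hγ f T hT hT' H ξ hξ => Pool.Agent.FGM.ordA h1 h2 hγ f T hT hT' H ξ hξ
  refine ⟨fun h γ hγ f T hT hT' H ξ hξ => ?_, key⟩
  have e1 : succ (ℵ_ 1 : Cardinal.{0}) = ℵ_ 2 := by
    rw [succ_aleph]
    norm_num
  have e2 : succ (ℵ_ 2 : Cardinal.{0}) = ℵ_ 3 := by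
    rw [succ_aleph]
    norm_num
  have h1 := key (ℵ_ 1) (aleph0_le_aleph 1) (by rw [h, e1]) γ hγ f T
  rw [e1, e2, ord_aleph, ord_aleph] at h1
  exact h1 hT hT' H ξ hξ

end Pool.Agent.Results.MP_648570_lc.FewGerms
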