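import Pool.Agent.TRC.Fin

/-!
# Homogeneous sets of type `ω₂ + m` for colourings dominated by transitive maps

Colourings of the pairs of `ω₃` with countably many colours.
-/

set_option autoImplicit false

namespace Pool.Agent.Results.MP_648570_lc.TransitiveMaps

open Cardinal Order Ordinal

/-- There is a set of ordinals `< κ` of order type `ξ` (the set of the `h j`, `j < ξ`) all of whose
pairs have the colour `n`. -/
def Hom (κ : Ordinal.{0}) (f : Ordinal.{0} → Ordinal.{0} → ℕ) (n : ℕ) (ξ : Ordinal.{0}) : Prop :=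
  ∃ h : Ordinal.{0} → Ordinal.{0}, (∀ j < ξ, h j < κ) ∧
    ∀ i j, i < j → j < ξ → h i < h j ∧ f (h i) (h j) = n

/-- The two partition theorems for the pairs of `κ`; only the values `f a b`, `ρ a b` for
`a < b < κ` matter. -/
def Relations (κ μ : Ordinal.{0}) : Prop :=
  (∀ f ρ : Ordinal.{0} → Ordinal.{0} → ℕ,
    (∀ a b, a < b → b < κ → f a b ≤ ρ a b) →
    (∀ b c, 0 < b → b < c → c < κ →
      ∃ d < b, ∀ a, d < a → a < b → ρ a c ≤ max (ρ a b) (ρ b c)) →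
    ∃ n, ∀ m : ℕ, Hom κ f n (μ + m)) ∧
  (∀ f : Ordinal.{0} → Ordinal.{0} → ℕ,
    (∀ a b c, a < b → b < c → c < κ → f a c ≤ max (f a b) (f b c)) →
    ∃ n, ∀ ξ < κ, Hom κ f n ξ)

theorem result :
    ((2 : Cardinal.{0}) ^ (ℵ_ 1 : Cardinal.{0}) = ℵ_ 2 → Relations (ω_ 3) (ω_ 2)) ∧
    ∀ ν : Cardinal.{0}, ℵ₀ ≤ ν → 2 ^ ν = succ ν →
      Relations (succ (succ ν)).ord (succ ν).ord := by
  have key : ∀ ν : Cardinal.{0}, ℵ₀ ≤ ν → 2 ^ ν = succ ν →
      Relations (succ (succ ν)).ord (succ ν).ord := fun ν h1 h2 =>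
    ⟨fun f ρ hf hρ => Pool.Agent.TRC.dom_ord h1 h2 f ρ hf hρ,
      fun f hf => Pool.Agent.TRC.trn_ord h1 h2 f hf⟩
  refine ⟨fun h => ?_, key⟩
  have e1 : succ (ℵ_ 1 : Cardinal.{0}) = ℵ_ 2 := by
    rw [succ_aleph]
    norm_num
  have e2 : succ (ℵ_ 2 : Cardinal.{0}) = ℵ_ 3 := by
    rw [succ_aleph]
    norm_num
  have h1 := key (ℵ_ 1) (aleph0_le_aleph 1) (by rw [h, e1])
  rw [e1, e2, ord_aleph, ord_aleph] at h1
  exact h1

end Pool.Agent.Results.MP_648570_lc.TransitiveMaps
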