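import Pool.Agent.FGM.TwoOrd

/-!
# Two-coloured sets of type `ω₂ + α` for all colourings of the pairs of `ω₃`
-/

set_option autoImplicit false

namespace Pool.Agent.Results.MP_648570_lc.TwoColours

open Cardinal Order Ordinal

/-- There is a set of ordinals `< κ` of order type `μ + α` (the set of the `h j`, `j < μ + α`) such
that a pair `h i < h j` has the colour `n` if `h i` is one of the first `μ` elements, and the
colour `m` otherwise. -/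
def TwoHom {γ : Type} (κ μ : Ordinal.{0}) (f : Ordinal.{0} → Ordinal.{0} → γ) (n m : γ)
    (α : Ordinal.{0}) : Prop :=
  ∃ h : Ordinal.{0} → Ordinal.{0}, (∀ j < μ + α, h j < κ) ∧
    ∀ i j, i < j → j < μ + α →
      h i < h j ∧ (i < μ → f (h i) (h j) = n) ∧ (μ ≤ i → f (h i) (h j) = m)

theorem result :
    ((2 : Cardinal.{0}) ^ (ℵ₀ : Cardinal.{0}) = ℵ_ 1 →
      (2 : Cardinal.{0}) ^ (ℵ_ 1 : Cardinal.{0}) = ℵ_ 2 →
      ∀ f : Ordinal.{0} → Ordinal.{0} → ℕ, ∃ n m, ∀ α < ω_ 1, TwoHom (ω_ 3) (ω_ 2) f n m α) ∧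
    ∀ τ ν : Cardinal.{0}, ℵ₀ ≤ τ → 2 ^ τ ≤ ν → 2 ^ ν = succ ν →
      ∀ γ : Type, #γ ≤ τ → ∀ f : Ordinal.{0} → Ordinal.{0} → γ, ∃ n m, ∀ α < (succ τ).ord,
        TwoHom (succ (succ ν)).ord (succ ν).ord f n m α := by
  have key : ∀ τ ν : Cardinal.{0}, ℵ₀ ≤ τ → 2 ^ τ ≤ ν → 2 ^ ν = succ ν →
      ∀ γ : Type, #γ ≤ τ → ∀ f : Ordinal.{0} → Ordinal.{0} → γ, ∃ n m, ∀ α < (succ τ).ord,
        TwoHom (succ (succ ν)).ord (succ ν).ord f n m α := by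
    intro τ ν h1 h2 h3 γ hγ f
    obtain ⟨m, n, h⟩ := Pool.Agent.FGM.two_ord h1 h2 h3 hγ f
    exact ⟨n, m, h⟩
  refine ⟨fun h0 h f => ?_, key⟩
  have e0 : succ (ℵ₀ : Cardinal.{0}) = ℵ_ 1 := by
    rw [← aleph_zero, succ_aleph]
    norm_num
  have e1 : succ (ℵ_ 1 : Cardinal.{0}) = ℵ_ 2 := by
    rw [succ_aleph]
    norm_num
  have e2 : succ (ℵ_ 2 : Cardinal.{0}) = ℵ_ 3 := by
    rw [succ_aleph]
    norm_num
  have h1 := key ℵ₀ (ℵ_ 1) le_rfl h0.le (by rw [h, e1]) ℕ mk_nat.le f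
  rw [e0, e1, e2, ord_aleph, ord_aleph, ord_aleph] at h1
  exact h1

end Pool.Agent.Results.MP_648570_lc.TwoColours
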